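import Mathlib

/-!
# Reverse oddtown families of subspaces in even dimension

The conjectured bound `[n - 1]_q` for reverse oddtown families of subspaces of `F_q ^ n`, `n` even,
fails for every `q`.

For an odd prime `k > q` put `K = F_{q^k}` and `V = K × K × F_q × F_q`, of dimension `2 k + 2`.
The `q + 1` one-dimensional quotients `h_s` of `F_q ^ 2` are labelled with pairwise distinct
exponents `e s < k`.  For `c` a `(q-1)`-st power in `K` and `φ : K → F_q` linear put
`A = {(x, y, z) : y = c x ^ (q ^ e s), h_s z = φ x}`.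
These spaces have dimension `k + 1`, two of them meet in dimension `k` or `1`,
and there are `(q + 1) q ^ k (q ^ k - 1) / (q - 1)` of them.
-/

namespace Pool.Agent.Results.MP_489091_co.LiftedGraphs

open Module

/-- A reverse oddtown family of subspaces of `F ^ n`: all members have even dimension and any two
distinct members intersect in odd dimension. -/
def IsReverseOddtown (F : Type) [Field F] (n : ℕ) (S : Finset (Submodule F (Fin n → F))) : Prop :=
  (∀ A ∈ S, Even (finrank F ↥A)) ∧
    ∀ A ∈ S, ∀ B ∈ S, A ≠ B → Odd (finrank F ↥(A ⊓ B))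

section Field

variable {F K : Type} [Field F] [Fintype F] [Field K] [Algebra F K] [FiniteDimensional F K]

theorem pow_card_eq {k : ℕ} (hk : finrank F K = k) (t : K) :
    t ^ (Fintype.card F ^ k) = t := by
  have : Finite K := Module.finite_of_finite F
  have : Fintype K := Fintype.ofFinite K
  have h : Fintype.card K = Fintype.card F ^ k := by
    rw [← hk]; exact Module.card_eq_pow_finrank
  rw [← h]
  exact FiniteField.pow_card t

omit [FiniteDimensional F K] in
theorem mem_base_of_pow (t : K) (ht : t ^ Fintype.card F = t) :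
    ∃ a : F, algebraMap F K a = t := by
  classical
  set q := Fintype.card F with hq
  have hq1 : 1 < q := Fintype.one_lt_card
  have hne : (Polynomial.X ^ q - Polynomial.X : Polynomial K) ≠ 0 :=
    FiniteField.X_pow_card_sub_X_ne_zero K hq1
  let R : Finset K := (Polynomial.X ^ q - Polynomial.X : Polynomial K).roots.toFinset
  have hR : R.card ≤ q := by
    calc R.card ≤ Multiset.card (Polynomial.X ^ q - Polynomial.X : Polynomial K).roots :=
          Multiset.toFinset_card_le _
      _ ≤ (Polynomial.X ^ q - Polynomial.X : Polynomial K).natDegree :=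
          Polynomial.card_roots' _
      _ = q := FiniteField.X_pow_card_sub_X_natDegree_eq K hq1
  have hsub : (Finset.univ.image (algebraMap F K)) ⊆ R := by
    intro x hx
    obtain ⟨a, -, rfl⟩ := Finset.mem_image.1 hx
    simp only [R, Multiset.mem_toFinset, Polynomial.mem_roots hne, Polynomial.IsRoot.def,
      Polynomial.eval_sub, Polynomial.eval_pow, Polynomial.eval_X]
    rw [← map_pow, FiniteField.pow_card, sub_self]
  have hcard : (Finset.univ.image (algebraMap F K)).card = q := by
    rw [Finset.card_image_of_injective _ (algebraMap F K).injective, Finset.card_univ]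
  have heq : (Finset.univ.image (algebraMap F K)) = R :=
    Finset.eq_of_subset_of_card_le hsub (by rw [hcard]; exact hR)
  have hmem : t ∈ R := by
    simp only [R, Multiset.mem_toFinset, Polynomial.mem_roots hne, Polynomial.IsRoot.def,
      Polynomial.eval_sub, Polynomial.eval_pow, Polynomial.eval_X]
    rw [ht, sub_self]
  rw [← heq] at hmem
  obtain ⟨a, -, ha⟩ := Finset.mem_image.1 hmem
  exact ⟨a, ha⟩

theorem iterate_frob (t : K) (q d : ℕ) : (fun x : K => x ^ q)^[d] t = t ^ (q ^ d) := by
  induction d with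
  | zero => simp
  | succ d ih => rw [Function.iterate_succ_apply', ih, ← pow_mul, pow_succ]

/-- An element fixed by a power of Frobenius prime to the degree lies in the base field. -/
theorem fixed_of_coprime {k d : ℕ} (hk : finrank F K = k) (hd : Nat.Coprime d k) (t : K)
    (ht : t ^ (Fintype.card F ^ d) = t) : t ^ Fintype.card F = t := by
  have h1 : Function.IsPeriodicPt (fun x : K => x ^ Fintype.card F) d t := by
    show (fun x : K => x ^ Fintype.card F)^[d] t = t
    rw [iterate_frob]; exact ht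
  have h2 : Function.IsPeriodicPt (fun x : K => x ^ Fintype.card F) k t := by
    show (fun x : K => x ^ Fintype.card F)^[k] t = t
    rw [iterate_frob]; exact pow_card_eq hk t
  have h3 := h1.gcd h2
  rw [hd.gcd_eq_one] at h3
  have h4 : (fun x : K => x ^ Fintype.card F)^[1] t = t := h3
  simpa using h4

omit [Fintype F] [Algebra F K] [FiniteDimensional F K] [Field F] in
theorem unit_pow_sub_one (u : Kˣ) (m : ℕ) (hm : 0 < m) : u ^ (m - 1) = 1 ↔ (u : K) ^ m = u := by
  obtain ⟨r, rfl⟩ : ∃ r, m = r + 1 := ⟨m - 1, by omega⟩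
  rw [Nat.add_sub_cancel, pow_succ]
  constructor
  · intro h
    have : (u : K) ^ r = 1 := by rw [← Units.val_pow_eq_pow_val, h, Units.val_one]
    rw [this, one_mul]
  · intro h
    have h2 : (u : K) ^ r = 1 := by
      have := mul_right_cancel₀ u.ne_zero (h.trans (one_mul (u : K)).symm)
      exact this
    ext
    rw [Units.val_pow_eq_pow_val, h2, Units.val_one]

theorem pow_range_eq {k d : ℕ} (hk : finrank F K = k) (hd : Nat.Coprime d k) :
    (powMonoidHom (Fintype.card F ^ d - 1) : Kˣ →* Kˣ).range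
      = (powMonoidHom (Fintype.card F - 1) : Kˣ →* Kˣ).range := by
  have : Finite K := Module.finite_of_finite F
  have hq0 : 0 < Fintype.card F := Fintype.card_pos
  have hker : (powMonoidHom (Fintype.card F ^ d - 1) : Kˣ →* Kˣ).ker
      = (powMonoidHom (Fintype.card F - 1) : Kˣ →* Kˣ).ker := by
    ext u
    rw [MonoidHom.mem_ker, MonoidHom.mem_ker, powMonoidHom_apply, powMonoidHom_apply,
      unit_pow_sub_one u _ (pow_pos hq0 d), unit_pow_sub_one u _ hq0]
    constructor
    · exact fixed_of_coprime hk hd _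
    · intro h
      have h1 : Function.IsPeriodicPt (fun x : K => x ^ Fintype.card F) 1 (u : K) := by
        show (fun x : K => x ^ Fintype.card F)^[1] (u : K) = u
        simpa using h
      have h2 := h1.mul_const d
      rw [one_mul] at h2
      have h3 : (fun x : K => x ^ Fintype.card F)^[d] (u : K) = u := h2
      rwa [iterate_frob] at h3
  have hle : (powMonoidHom (Fintype.card F ^ d - 1) : Kˣ →* Kˣ).range
      ≤ (powMonoidHom (Fintype.card F - 1) : Kˣ →* Kˣ).range := by
    rintro _ ⟨u, rfl⟩
    obtain ⟨m, hm⟩ : (Fintype.card F - 1) ∣ (Fintype.card F ^ d - 1) := by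
      simpa using Nat.sub_dvd_pow_sub_pow (Fintype.card F) 1 d
    refine ⟨u ^ m, ?_⟩
    rw [powMonoidHom_apply, powMonoidHom_apply, hm, ← pow_mul, mul_comm]
  refine Subgroup.eq_of_le_of_card_ge hle ?_
  rw [← Subgroup.index_ker, ← Subgroup.index_ker, hker]

/-- Solvability of `x ^ (q ^ j) = c x ^ (q ^ i)` for `(q-1)`-st powers `c`. -/
theorem exists_sol {k i j : ℕ} (hk : finrank F K = k) (hij : i < j) (hj : j < k)
    (hd : Nat.Coprime (j - i) k) (c : Kˣ)
    (hc : c ∈ (powMonoidHom (Fintype.card F - 1) : Kˣ →* Kˣ).range) :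
    ∃ x : K, x ≠ 0 ∧ x ^ (Fintype.card F ^ j) = c * x ^ (Fintype.card F ^ i) := by
  set q := Fintype.card F with hq
  have hq0 : 0 < q := Fintype.card_pos
  rw [← pow_range_eq hk hd] at hc
  obtain ⟨z, hz⟩ := hc
  rw [powMonoidHom_apply] at hz
  have hx : ((z : K) ^ q ^ (k - i)) ^ q ^ i = z := by
    rw [← pow_mul, ← pow_add, Nat.sub_add_cancel (by omega)]
    exact pow_card_eq hk (z : K)
  refine ⟨(z : K) ^ q ^ (k - i), pow_ne_zero _ z.ne_zero, ?_⟩
  have hji : q ^ j = q ^ i * q ^ (j - i) := by rw [← pow_add]; congr 1; omega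
  rw [hji, pow_mul, hx, ← hz, Units.val_pow_eq_pow_val, ← pow_succ,
    Nat.sub_add_cancel (Nat.one_le_iff_ne_zero.2 (pow_pos hq0 _).ne')]

/-- Uniqueness up to scalars of the solution. -/
theorem unique_sol {k i j : ℕ} (hk : finrank F K = k) (hij : i < j) (hj : j < k)
    (hd : Nat.Coprime (j - i) k) (t : K)
    (ht : t ^ (Fintype.card F ^ j) = t ^ (Fintype.card F ^ i)) :
    ∃ a : F, algebraMap F K a = t := by
  set q := Fintype.card F with hq
  apply mem_base_of_pow
  apply fixed_of_coprime hk hd
  have hji : q ^ j * q ^ (k - i) = q ^ k * q ^ (j - i) := by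
    rw [← pow_add, ← pow_add]; congr 1; omega
  have h1 : (t ^ q ^ j) ^ q ^ (k - i) = t ^ q ^ (j - i) := by
    rw [← pow_mul, hji, pow_mul]
    rw [pow_card_eq hk t]
  have h2 : (t ^ q ^ i) ^ q ^ (k - i) = t := by
    rw [← pow_mul, ← pow_add, show i + (k - i) = k by omega]
    exact pow_card_eq hk t
  rw [← h1, ht, h2]

/-- The combined statement for two distinct exponents. -/
theorem line {k : ℕ} (hk : finrank F K = k) (hp : k.Prime) {i j : ℕ} (hi : i < k) (hj : j < k)
    (hij : i ≠ j) (c c' : Kˣ)
    (hc : c ∈ (powMonoidHom (Fintype.card F - 1) : Kˣ →* Kˣ).range)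
    (hc' : c' ∈ (powMonoidHom (Fintype.card F - 1) : Kˣ →* Kˣ).range) :
    ∃ x : K, x ≠ 0 ∧ (c : K) * x ^ (Fintype.card F ^ i) = c' * x ^ (Fintype.card F ^ j) ∧
      ∀ y : K, (c : K) * y ^ (Fintype.card F ^ i) = c' * y ^ (Fintype.card F ^ j) →
        ∃ a : F, y = a • x := by
  have main : ∀ (i j : ℕ) (c c' : Kˣ), i < k → j < k → i < j →
      c ∈ (powMonoidHom (Fintype.card F - 1) : Kˣ →* Kˣ).range →
      c' ∈ (powMonoidHom (Fintype.card F - 1) : Kˣ →* Kˣ).range →
      ∃ x : K, x ≠ 0 ∧ (c : K) * x ^ (Fintype.card F ^ i) = c' * x ^ (Fintype.card F ^ j) ∧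
      ∀ y : K, (c : K) * y ^ (Fintype.card F ^ i) = c' * y ^ (Fintype.card F ^ j) →
        ∃ a : F, y = a • x := by
    intro i j c c' hi hj hij hc hc'
    have hd : Nat.Coprime (j - i) k := by
      rw [Nat.coprime_comm]
      exact (Nat.Prime.coprime_iff_not_dvd hp).2 (Nat.not_dvd_of_pos_of_lt (by omega) (by omega))
    obtain ⟨x, hx0, hx⟩ := exists_sol hk hij hj hd (c / c') (Subgroup.div_mem _ hc hc')
    have hx1 : (c : K) * x ^ (Fintype.card F ^ i) = c' * x ^ (Fintype.card F ^ j) := by
      rw [hx, Units.val_div_eq_div_val]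
      field_simp
    refine ⟨x, hx0, hx1, ?_⟩
    intro y hy
    obtain ⟨a, ha⟩ := unique_sol hk hij hj hd (y / x) (by
      have e1 : y ^ (Fintype.card F ^ j) = (c : K) / c' * y ^ (Fintype.card F ^ i) := by
        field_simp; rw [hy]; ring
      have e2 : x ^ (Fintype.card F ^ j) = (c : K) / c' * x ^ (Fintype.card F ^ i) := by
        field_simp; rw [hx1]; ring
      rw [div_pow, div_pow, e1, e2]
      have : (c : K) / c' ≠ 0 := div_ne_zero c.ne_zero c'.ne_zero
      rw [mul_div_mul_left _ _ this])
    refine ⟨a, ?_⟩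
    rw [Algebra.smul_def, ha, div_mul_cancel₀ _ hx0]
  rcases lt_or_gt_of_ne hij with h | h
  · exact main i j c c' hi hj h hc hc'
  · obtain ⟨x, hx0, hx1, hx2⟩ := main j i c' c hj hi h hc' hc
    exact ⟨x, hx0, hx1.symm, fun y hy => hx2 y hy.symm⟩

end Field

section Spaces

variable (F K : Type) [Field F] [Fintype F] [Field K] [Algebra F K] [FiniteDimensional F K]

/-- The ambient space `K × K × F × F`. -/
abbrev V : Type := K × K × (F × F)

/-- The `e`-th power of Frobenius as a linear map. -/
noncomputable def frobPow (e : ℕ) : K →ₗ[F] K :=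
  ((FiniteField.frobeniusAlgHom F K) ^ e).toLinearMap

omit [FiniteDimensional F K] in
theorem frobPow_apply (e : ℕ) (x : K) : frobPow F K e x = x ^ (Fintype.card F ^ e) := by
  show ((FiniteField.frobeniusAlgHom F K) ^ e) x = _
  induction e with
  | zero => simp
  | succ e ih =>
    rw [pow_succ', AlgHom.mul_apply, ih, FiniteField.coe_frobeniusAlgHom]
    show (x ^ Fintype.card F ^ e) ^ Fintype.card F = _
    rw [← pow_mul, pow_succ]

/-- The `q + 1` functionals on `F × F`, one for each point of the projective line. -/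
def hfun : Option F → (F × F →ₗ[F] F)
  | none => LinearMap.fst F F F
  | some s => LinearMap.snd F F F - s • LinearMap.fst F F F

/-- Coordinates of `V`. -/
def px : V F K →ₗ[F] K := LinearMap.fst F K (K × (F × F))
/-- Coordinates of `V`. -/
def py : V F K →ₗ[F] K := (LinearMap.fst F K (F × F)).comp (LinearMap.snd F K (K × (F × F)))
/-- Coordinates of `V`. -/
def pz : V F K →ₗ[F] (F × F) :=
  (LinearMap.snd F K (F × F)).comp (LinearMap.snd F K (K × (F × F)))

/-- First equation of the members: `y - c x ^ (q ^ e)`. -/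
noncomputable def g1 (e : ℕ) (c : K) : V F K →ₗ[F] K :=
  py F K - (LinearMap.mulLeft F c).comp ((frobPow F K e).comp (px F K))

/-- Second equation of the members: `h_s z - φ x`. -/
noncomputable def g2 (s : Option F) (φ : K →ₗ[F] F) : V F K →ₗ[F] F :=
  (hfun F s).comp (pz F K) - φ.comp (px F K)

/-- The members of the family. -/
noncomputable def A (e : ℕ) (s : Option F) (c : K) (φ : K →ₗ[F] F) : Submodule F (V F K) :=
  LinearMap.ker ((g1 F K e c).prod (g2 F K s φ))

variable {F K}

omit [FiniteDimensional F K] in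
theorem mem_A (e : ℕ) (s : Option F) (c : K) (φ : K →ₗ[F] F) (v : V F K) :
    v ∈ A F K e s c φ ↔ v.2.1 = c * v.1 ^ (Fintype.card F ^ e) ∧ hfun F s v.2.2 = φ v.1 := by
  simp only [A, LinearMap.ker_prod, Submodule.mem_inf, LinearMap.mem_ker, g1, g2,
    LinearMap.sub_apply, LinearMap.comp_apply, LinearMap.mulLeft_apply, frobPow_apply, px, py, pz,
    LinearMap.fst_apply, LinearMap.snd_apply, sub_eq_zero]

omit [Fintype F] in
theorem hfun_surj (s : Option F) (a : F) : ∃ z : F × F, hfun F s z = a := by
  cases s with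
  | none => exact ⟨(a, 0), by simp [hfun]⟩
  | some s => exact ⟨(0, a), by simp [hfun]⟩

omit [Fintype F] in
theorem hfun_pair {s s' : Option F} (h : s ≠ s') (a b : F) :
    ∃ z : F × F, hfun F s z = a ∧ hfun F s' z = b ∧
      ∀ w : F × F, hfun F s w = a → hfun F s' w = b → w = z := by
  cases s with
  | none =>
    cases s' with
    | none => exact absurd rfl h
    | some t =>
      refine ⟨(a, b + t * a), by simp [hfun], by simp [hfun], ?_⟩
      rintro ⟨u, v⟩ h1 h2
      simp only [hfun, LinearMap.fst_apply, LinearMap.sub_apply, LinearMap.snd_apply,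
        LinearMap.smul_apply, smul_eq_mul] at h1 h2
      ext
      · exact h1
      · simp only; rw [← h2, h1]; ring
  | some r =>
    cases s' with
    | none =>
      refine ⟨(b, a + r * b), by simp [hfun], by simp [hfun], ?_⟩
      rintro ⟨u, v⟩ h1 h2
      simp only [hfun, LinearMap.fst_apply, LinearMap.sub_apply, LinearMap.snd_apply,
        LinearMap.smul_apply, smul_eq_mul] at h1 h2
      ext
      · exact h2
      · simp only; rw [← h1, h2]; ring
    | some t =>
      have hrt : r - t ≠ 0 := sub_ne_zero.2 (fun e => h (by rw [e]))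
      refine ⟨((b - a) / (r - t), a + r * ((b - a) / (r - t))), by simp [hfun], ?_, ?_⟩
      · simp only [hfun, LinearMap.fst_apply, LinearMap.sub_apply, LinearMap.snd_apply,
          LinearMap.smul_apply, smul_eq_mul]
        field_simp; ring
      · rintro ⟨u, v⟩ h1 h2
        simp only [hfun, LinearMap.fst_apply, LinearMap.sub_apply, LinearMap.snd_apply,
          LinearMap.smul_apply, smul_eq_mul] at h1 h2
        have hu : u = (b - a) / (r - t) := by
          field_simp; rw [← h1, ← h2]; ring
        ext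
        · exact hu
        · simp only; rw [← hu, ← h1]; ring

omit [Fintype F] in
theorem finrank_V {k : ℕ} (hk : finrank F K = k) : finrank F (V F K) = 2 * k + 2 := by
  rw [Module.finrank_prod, Module.finrank_prod, Module.finrank_prod, hk, Module.finrank_self]
  ring

omit [Fintype F] in
theorem finrank_ker_of_surj {W : Type} [AddCommGroup W] [Module F W] [FiniteDimensional F W]
    (T : V F K →ₗ[F] W) (hT : Function.Surjective T) :
    finrank F (LinearMap.ker T) + finrank F W = finrank F (V F K) := by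
  have h := LinearMap.finrank_range_add_finrank_ker T
  rw [LinearMap.range_eq_top.2 hT, finrank_top] at h
  omega

theorem finrank_A {k : ℕ} (hk : finrank F K = k) (e : ℕ) (s : Option F) (c : K)
    (φ : K →ₗ[F] F) : finrank F (A F K e s c φ) = k + 1 := by
  have h := finrank_ker_of_surj ((g1 F K e c).prod (g2 F K s φ)) (by
    rintro ⟨y, a⟩
    obtain ⟨z, hz⟩ := hfun_surj s a
    refine ⟨(0, y, z), ?_⟩
    simp [g1, g2, px, py, pz, hz, frobPow])
  rw [finrank_V hk, Module.finrank_prod, hk, Module.finrank_self] at h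
  show finrank F (LinearMap.ker ((g1 F K e c).prod (g2 F K s φ))) = k + 1
  omega

theorem finrank_inf_same {k : ℕ} (hk : finrank F K = k) (e : ℕ) (s : Option F) (c : K)
    {φ ψ : K →ₗ[F] F} (h : φ ≠ ψ) :
    finrank F ↥(A F K e s c φ ⊓ A F K e s c ψ) = k := by
  have hne : φ - ψ ≠ 0 := sub_ne_zero.2 h
  have hs := LinearMap.surjective hne
  have heq : A F K e s c φ ⊓ A F K e s c ψ
      = LinearMap.ker ((g1 F K e c).prod ((g2 F K s φ).prod ((φ - ψ).comp (px F K)))) := by
    ext v
    rw [Submodule.mem_inf, mem_A, mem_A]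
    simp only [LinearMap.ker_prod, Submodule.mem_inf, LinearMap.mem_ker, g1, g2,
      LinearMap.sub_apply, LinearMap.comp_apply, LinearMap.mulLeft_apply, frobPow_apply, px, py, pz,
      LinearMap.fst_apply, LinearMap.snd_apply, sub_eq_zero]
    constructor
    · rintro ⟨⟨h1, h2⟩, h3, h4⟩
      exact ⟨h1, h2, h2 ▸ h4⟩
    · rintro ⟨h1, h2, h3⟩
      exact ⟨⟨h1, h2⟩, h1, h2.trans h3⟩
  have hr := finrank_ker_of_surj
    ((g1 F K e c).prod ((g2 F K s φ).prod ((φ - ψ).comp (px F K)))) (by
    rintro ⟨y, a, b⟩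
    obtain ⟨x, hx⟩ := hs b
    obtain ⟨z, hz⟩ := hfun_surj s (a + φ x)
    refine ⟨(x, y + c * frobPow F K e x, z), ?_⟩
    simp only [LinearMap.sub_apply] at hx
    simp [g1, g2, px, py, pz, hz, hx])
  rw [finrank_V hk, Module.finrank_prod, Module.finrank_prod, hk, Module.finrank_self] at hr
  rw [heq]
  omega

theorem finrank_inf_diff {k : ℕ} (hk : finrank F K = k) (e : ℕ) (s : Option F) {c c' : K}
    (φ ψ : K →ₗ[F] F) (h : c ≠ c') :
    finrank F ↥(A F K e s c φ ⊓ A F K e s c' ψ) = 1 := by
  have heq : A F K e s c φ ⊓ A F K e s c' ψ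
      = LinearMap.ker ((px F K).prod ((py F K).prod ((hfun F s).comp (pz F K)))) := by
    ext v
    rw [Submodule.mem_inf, mem_A, mem_A]
    simp only [LinearMap.ker_prod, Submodule.mem_inf, LinearMap.mem_ker,
      LinearMap.comp_apply, px, py, pz, LinearMap.fst_apply, LinearMap.snd_apply]
    have hq : (Fintype.card F ^ e) ≠ 0 := pow_ne_zero _ Fintype.card_ne_zero
    constructor
    · rintro ⟨⟨h1, h2⟩, h3, h4⟩
      have h5 : (c - c') * v.1 ^ (Fintype.card F ^ e) = 0 := by
        rw [sub_mul, ← h1, ← h3, sub_self]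
      have h6 : v.1 = 0 := by
        rcases mul_eq_zero.1 h5 with h7 | h7
        · exact absurd (sub_eq_zero.1 h7) h
        · exact pow_eq_zero_iff hq |>.1 h7
      refine ⟨h6, ?_, ?_⟩
      · rw [h1, h6, zero_pow hq, mul_zero]
      · rw [h2, h6, map_zero]
    · rintro ⟨h1, h2, h3⟩
      rw [h1, h2, h3, map_zero, map_zero, zero_pow hq]
      simp
  have hr := finrank_ker_of_surj
    ((px F K).prod ((py F K).prod ((hfun F s).comp (pz F K)))) (by
    rintro ⟨x, y, a⟩
    obtain ⟨z, hz⟩ := hfun_surj s a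
    exact ⟨(x, y, z), by simp [px, py, pz, hz]⟩)
  rw [finrank_V hk, Module.finrank_prod, Module.finrank_prod, hk, Module.finrank_self] at hr
  rw [heq]
  omega

theorem finrank_inf_line {k : ℕ} (hk : finrank F K = k) (hp : k.Prime) {i j : ℕ} (hi : i < k)
    (hj : j < k) (hij : i ≠ j) {s s' : Option F} (hs : s ≠ s') (c c' : Kˣ)
    (hc : c ∈ (powMonoidHom (Fintype.card F - 1) : Kˣ →* Kˣ).range)
    (hc' : c' ∈ (powMonoidHom (Fintype.card F - 1) : Kˣ →* Kˣ).range)
    (φ ψ : K →ₗ[F] F) :
    finrank F ↥(A F K i s c φ ⊓ A F K j s' c' ψ) = 1 := by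
  obtain ⟨x, hx0, hx1, hx2⟩ := line hk hp hi hj hij c c' hc hc'
  obtain ⟨z, hz1, hz2, hz3⟩ := hfun_pair hs (φ x) (ψ x)
  have heq : A F K i s c φ ⊓ A F K j s' c' ψ
      = Submodule.span F {((x, (c : K) * x ^ (Fintype.card F ^ i), z) : V F K)} := by
    apply le_antisymm
    · intro v hv
      rw [Submodule.mem_inf, mem_A, mem_A] at hv
      obtain ⟨⟨h1, h2⟩, h3, h4⟩ := hv
      obtain ⟨a, ha⟩ := hx2 v.1 (h1.symm.trans h3)
      rw [Submodule.mem_span_singleton]
      refine ⟨a, ?_⟩
      have hy : v.2.1 = a • ((c : K) * x ^ (Fintype.card F ^ i)) := by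
        rw [h1, ha, ← frobPow_apply, ← frobPow_apply, map_smul, mul_smul_comm]
      have hz : v.2.2 = a • z := by
        obtain ⟨z', hz1', hz2', hz3'⟩ := hfun_pair hs (φ v.1) (ψ v.1)
        rw [hz3' v.2.2 h2 h4]
        refine (hz3' (a • z) ?_ ?_).symm
        · rw [map_smul, hz1, ha, map_smul]
        · rw [map_smul, hz2, ha, map_smul]
      refine Prod.ext ?_ (Prod.ext ?_ ?_)
      · exact ha.symm
      · exact hy.symm
      · exact hz.symm
    · rw [Submodule.span_singleton_le_iff_mem, Submodule.mem_inf, mem_A, mem_A]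
      exact ⟨⟨rfl, hz1⟩, hx1, hz2⟩
  rw [heq]
  apply finrank_span_singleton
  intro h
  exact hx0 (congrArg Prod.fst h)

end Spaces

section Family

variable (F K : Type) [Field F] [Fintype F] [Field K] [Algebra F K] [FiniteDimensional F K]

/-- The index set of the family. -/
abbrev Idx : Type :=
  Option F × ((powMonoidHom (Fintype.card F - 1) : Kˣ →* Kˣ).range × (K →ₗ[F] F))

variable {F K}

/-- The member with a given index. -/
noncomputable def member (e : Option F → ℕ) (a : Idx F K) : Submodule F (V F K) :=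
  A F K (e a.1) a.1 ((a.2.1 : Kˣ) : K) a.2.2

theorem member_inf {k : ℕ} (hk : finrank F K = k) (hp : k.Prime) (hodd : Odd k)
    (e : Option F → ℕ) (he : Function.Injective e) (hlt : ∀ s, e s < k) {a b : Idx F K}
    (hab : a ≠ b) : Odd (finrank F ↥(member e a ⊓ member e b)) := by
  obtain ⟨s, c, φ⟩ := a
  obtain ⟨s', c', ψ⟩ := b
  by_cases hs : s = s'
  · subst hs
    by_cases hc : c = c'
    · subst hc
      have hφ : φ ≠ ψ := fun h => hab (by rw [h])
      have h := finrank_inf_same hk (e s) s ((c : Kˣ) : K) hφ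
      show Odd (finrank F ↥(A F K (e s) s ((c : Kˣ) : K) φ ⊓ A F K (e s) s ((c : Kˣ) : K) ψ))
      rw [h]; exact hodd
    · have hc2 : ((c : Kˣ) : K) ≠ ((c' : Kˣ) : K) := fun h => hc (Subtype.ext (Units.ext h))
      have h := finrank_inf_diff hk (e s) s φ ψ hc2
      show Odd (finrank F ↥(A F K (e s) s ((c : Kˣ) : K) φ ⊓ A F K (e s) s ((c' : Kˣ) : K) ψ))
      rw [h]; exact odd_one
  · have h := finrank_inf_line hk hp (hlt s) (hlt s') (fun h => hs (he h)) hs (c : Kˣ) (c' : Kˣ)
      c.2 c'.2 φ ψ
    show Odd (finrank F ↥(A F K (e s) s ((c : Kˣ) : K) φ ⊓ A F K (e s') s' ((c' : Kˣ) : K) ψ))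
    rw [h]; exact odd_one

theorem card_Idx {k : ℕ} (hk : finrank F K = k) :
    Nat.card (Idx F K) * (Fintype.card F - 1)
      = (Fintype.card F + 1) * Fintype.card F ^ k * (Fintype.card F ^ k - 1) := by
  classical
  have : Finite K := Module.finite_of_finite F
  have : Fintype K := Fintype.ofFinite K
  have hq1 : 1 < Fintype.card F := Fintype.one_lt_card
  have hK : Nat.card K = Fintype.card F ^ k := by
    rw [Nat.card_eq_fintype_card, Module.card_eq_pow_finrank (K := F) (V := K), hk]
  have hU : Nat.card Kˣ = Fintype.card F ^ k - 1 := by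
    rw [Nat.card_units, hK]
  have hdvd : (Fintype.card F - 1) ∣ (Fintype.card F ^ k - 1) := by
    simpa using Nat.sub_dvd_pow_sub_pow (Fintype.card F) 1 k
  have hR : Nat.card (powMonoidHom (Fintype.card F - 1) : Kˣ →* Kˣ).range
      = (Fintype.card F ^ k - 1) / (Fintype.card F - 1) := by
    rw [IsCyclic.card_powMonoidHom_range, hU, Nat.gcd_eq_right hdvd]
  have hL : Nat.card (K →ₗ[F] F) = Fintype.card F ^ k := by
    have : Finite (K →ₗ[F] F) := Module.finite_of_finite F
    have : Fintype (K →ₗ[F] F) := Fintype.ofFinite _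
    rw [Nat.card_eq_fintype_card, Module.card_eq_pow_finrank (K := F) (V := K →ₗ[F] F),
      Module.finrank_linearMap, hk, Module.finrank_self, mul_one]
  rw [Nat.card_prod, Nat.card_prod, hR, hL, Nat.card_eq_fintype_card, Fintype.card_option]
  calc (Fintype.card F + 1) * ((Fintype.card F ^ k - 1) / (Fintype.card F - 1)
        * Fintype.card F ^ k) * (Fintype.card F - 1)
      = (Fintype.card F + 1) * Fintype.card F ^ k
        * ((Fintype.card F ^ k - 1) / (Fintype.card F - 1) * (Fintype.card F - 1)) := by ring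
    _ = _ := by rw [Nat.div_mul_cancel hdvd]

end Family

/-- The numerical inequality. -/
theorem size_bound {q k N : ℕ} (hq : 2 ≤ q) (hk : 2 ≤ k)
    (hN : N * (q - 1) = (q + 1) * q ^ k * (q ^ k - 1)) :
    ∑ i ∈ Finset.range (2 * k + 1), q ^ i < N := by
  have hgeom : (∑ i ∈ Finset.range (2 * k + 1), q ^ i) * (q - 1) = q ^ (2 * k + 1) - 1 := by
    have h := Nat.geomSum_eq hq (2 * k + 1)
    rw [h]
    apply Nat.div_mul_cancel
    simpa using Nat.sub_dvd_pow_sub_pow q 1 (2 * k + 1)
  have hq1 : 0 < q - 1 := by omega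
  refine lt_of_mul_lt_mul_right ?_ hq1.le
  rw [hgeom, hN]
  obtain ⟨Q, hQ⟩ : ∃ Q, Q = q ^ k := ⟨_, rfl⟩
  have h1 : q ^ (2 * k + 1) = Q * Q * q := by
    rw [hQ, pow_succ, two_mul, pow_add]
  have h2 : q + 2 ≤ Q + 1 := by
    have : q ^ 2 ≤ q ^ k := Nat.pow_le_pow_right (by omega) hk
    have h3 : q * q ≤ Q := by rw [hQ, ← pow_two]; exact this
    nlinarith
  rw [h1, ← hQ]
  obtain ⟨R, hR⟩ : ∃ R, Q = R + 1 := ⟨Q - 1, by omega⟩
  subst hR
  rw [Nat.add_sub_cancel]
  have h3 : (R + 1) * (R + 1) * q < (q + 1) * (R + 1) * R + 1 := by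
    have : (q + 1) * (R + 1) * R = (R + 1) * (R + 1) * q + (R + 1) * R - (R + 1) * q := by
      rw [eq_comm, Nat.sub_eq_iff_eq_add]
      · ring
      · nlinarith
    nlinarith
  have h4 : 0 < (R + 1) * (R + 1) * q := by positivity
  omega

/-- The families of the theorem. -/
theorem exists_family (F : Type) [Field F] [Fintype F] (k : ℕ) (hp : k.Prime)
    (hqk : Fintype.card F < k) :
    ∃ S : Finset (Submodule F (Fin (2 * k + 2) → F)), IsReverseOddtown F (2 * k + 2) S ∧
      S.card * (Fintype.card F - 1)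
        = (Fintype.card F + 1) * Fintype.card F ^ k * (Fintype.card F ^ k - 1) := by
  classical
  obtain ⟨p, hchar⟩ := CharP.exists F
  have hpp : Fact p.Prime := ⟨CharP.char_is_prime F p⟩
  have hk0 : NeZero k := ⟨hp.ne_zero⟩
  have hq1 : 1 < Fintype.card F := Fintype.one_lt_card
  have hodd : Odd k := hp.odd_of_ne_two (by omega)
  let K := FiniteField.Extension F p k
  have hk : finrank F K = k := FiniteField.finrank_extension F p k
  obtain ⟨e, he⟩ : ∃ e : Option F → Fin k, Function.Injective e := by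
    have : Nonempty (Option F ↪ Fin k) := Function.Embedding.nonempty_of_card_le (by
      rw [Fintype.card_option, Fintype.card_fin]; exact hqk)
    obtain ⟨f⟩ := this
    exact ⟨f, f.injective⟩
  let e' : Option F → ℕ := fun s => (e s : ℕ)
  have he' : Function.Injective e' := fun s t h => he (Fin.ext h)
  have hlt : ∀ s, e' s < k := fun s => (e s).2
  let L : V F K ≃ₗ[F] (Fin (2 * k + 2) → F) := LinearEquiv.ofFinrankEq _ _ (by
    rw [finrank_V hk, Module.finrank_fin_fun])
  let Φ : Idx F K → Submodule F (Fin (2 * k + 2) → F) :=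
    fun a => (member e' a).map (L : V F K →ₗ[F] (Fin (2 * k + 2) → F))
  have hdim : ∀ a, finrank F (Φ a) = k + 1 := by
    intro a
    rw [LinearEquiv.finrank_map_eq]
    exact finrank_A hk _ _ _ _
  have hinf : ∀ a b, a ≠ b → Odd (finrank F ↥(Φ a ⊓ Φ b)) := by
    intro a b hab
    have : Φ a ⊓ Φ b = (member e' a ⊓ member e' b).map
        (L : V F K →ₗ[F] (Fin (2 * k + 2) → F)) :=
      (Submodule.map_inf _ L.injective).symm
    rw [this, LinearEquiv.finrank_map_eq]
    exact member_inf hk hp hodd e' he' hlt hab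
  have heven : Even (k + 1) := by
    obtain ⟨r, hr⟩ := hodd
    exact ⟨r + 1, by omega⟩
  have hinj : Function.Injective Φ := by
    intro a b hab
    by_contra hne
    have h1 := hinf a b hne
    rw [hab, inf_idem, hdim b] at h1
    exact (Nat.not_even_iff_odd.2 h1) heven
  have : Finite K := Module.finite_of_finite F
  have : Finite (K →ₗ[F] F) := Module.finite_of_finite F
  have : Fintype (Idx F K) := Fintype.ofFinite _
  refine ⟨Finset.univ.image Φ, ⟨?_, ?_⟩, ?_⟩
  · intro B hB
    obtain ⟨a, -, rfl⟩ := Finset.mem_image.1 hB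
    rw [hdim a]; exact heven
  · intro B hB C hC hBC
    obtain ⟨a, -, rfl⟩ := Finset.mem_image.1 hB
    obtain ⟨b, -, rfl⟩ := Finset.mem_image.1 hC
    exact hinf a b (fun h => hBC (by rw [h]))
  · rw [Finset.card_image_of_injective _ hinj, Finset.card_univ, ← Nat.card_eq_fintype_card]
    exact card_Idx hk

/-- **The bound `[n - 1]_q` for reverse oddtown families in even dimension fails for every `q`.**

Part 1: for every finite field `F` with `q` elements and every prime `k > q` there is a reverse
oddtown family in `F ^ (2 k + 2)` with exactly `(q + 1) q ^ k (q ^ k - 1) / (q - 1)` members, more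
than `[2 k + 1]_q = 1 + q + ... + q ^ (2 k)`.

Part 2: the statement of the question is false, and it fails for every `q` and in infinitely many
even dimensions. -/
theorem result :
    (∀ (F : Type) [Field F] [Fintype F] (k : ℕ), k.Prime → Fintype.card F < k →
      ∃ S : Finset (Submodule F (Fin (2 * k + 2) → F)),
        IsReverseOddtown F (2 * k + 2) S ∧
        S.card * (Fintype.card F - 1)
          = (Fintype.card F + 1) * Fintype.card F ^ k * (Fintype.card F ^ k - 1) ∧
        ∑ i ∈ Finset.range (2 * k + 1), Fintype.card F ^ i < S.card) ∧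
    (∀ (F : Type) [Field F] [Fintype F] (N : ℕ),
      ∃ n, N ≤ n ∧ Even n ∧ ∃ S : Finset (Submodule F (Fin n → F)),
        IsReverseOddtown F n S ∧
        ∑ i ∈ Finset.range (n - 1), Fintype.card F ^ i < S.card) ∧
    ¬ (∀ (n : ℕ) (F : Type) [Field F] [Fintype F], 0 < n → Even n → Odd (Fintype.card F) →
      ∀ S : Finset (Submodule F (Fin n → F)), IsReverseOddtown F n S →
        S.card ≤ ∑ i ∈ Finset.range (n - 1), Fintype.card F ^ i) := by
  have main : ∀ (F : Type) [Field F] [Fintype F] (k : ℕ), k.Prime → Fintype.card F < k →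
      ∃ S : Finset (Submodule F (Fin (2 * k + 2) → F)),
        IsReverseOddtown F (2 * k + 2) S ∧
        S.card * (Fintype.card F - 1)
          = (Fintype.card F + 1) * Fintype.card F ^ k * (Fintype.card F ^ k - 1) ∧
        ∑ i ∈ Finset.range (2 * k + 1), Fintype.card F ^ i < S.card := by
    intro F _ _ k hp hqk
    obtain ⟨S, h1, h2⟩ := exists_family F k hp hqk
    exact ⟨S, h1, h2, size_bound Fintype.one_lt_card hp.two_le h2⟩
  have main2 : ∀ (F : Type) [Field F] [Fintype F] (N : ℕ),
      ∃ n, N ≤ n ∧ Even n ∧ ∃ S : Finset (Submodule F (Fin n → F)),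
        IsReverseOddtown F n S ∧
        ∑ i ∈ Finset.range (n - 1), Fintype.card F ^ i < S.card := by
    intro F _ _ N
    obtain ⟨k, hk, hp⟩ := Nat.exists_infinite_primes (N + Fintype.card F + 1)
    obtain ⟨S, h1, -, h3⟩ := main F k hp (by omega)
    exact ⟨2 * k + 2, by omega, ⟨k + 1, by omega⟩, S, h1, h3⟩
  refine ⟨main, main2, ?_⟩
  intro h
  have : Fact (Nat.Prime 3) := ⟨Nat.prime_three⟩
  obtain ⟨n, hn, hev, S, h1, h2⟩ := main2 (ZMod 3) 1
  exact absurd (h n (ZMod 3) (by omega) hev (by rw [ZMod.card]; decide) S h1) (not_le.2 h2)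

end Pool.Agent.Results.MP_489091_co.LiftedGraphs
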